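import Pool.Agent.U796.GE.BND

/-!
# The Selmer groups of `y² = x³ + 2 x² + 2 x`
-/

set_option autoImplicit false
set_option linter.style.haveILetI false

namespace Pool.Agent.U860.DS

open Pool.Agent.U115.GE (Qs ELS SelSet sel)
open Pool.Agent.U115.TP (LSol)
open Pool.Agent.U796.GE (lsol_of_qs one_mem)

lemma dvd_of_mem {a b d : ℤ} (h : d ∈ SelSet a b) : d.natAbs ∣ b.natAbs := by
  obtain ⟨hd, hels⟩ := h
  have hsf : Squarefree d.natAbs := Int.squarefree_natAbs.2 hd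
  rw [← Nat.prod_primeFactors_of_squarefree hsf]
  refine Finset.prod_primes_dvd _ (fun p hp => (Nat.prime_of_mem_primeFactors hp).prime)
    fun p hp => ?_
  have hpp := Nat.prime_of_mem_primeFactors hp
  have : Fact p.Prime := ⟨hpp⟩
  have hpd : (p : ℤ) ∣ d := Int.natCast_dvd.2 (Nat.dvd_of_mem_primeFactors hp)
  exact Int.natCast_dvd.1 ((lsol_of_qs hd (hels.2 p)).dvdB hd hpd)

/-- the squares modulo `32` -/
def Sq32 : Finset (ZMod 32) := {0, 1, 4, 9, 16, 17, 25}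

/-- the squares of the units modulo `32` -/
def Un32 : Finset (ZMod 32) := {1, 9, 17, 25}

lemma sq32 : ∀ x : ZMod 32, x ^ 2 ∈ Sq32 := by decide

lemma un32 : ∀ x v : ZMod 32, x * v = 1 → x ^ 2 ∈ Un32 := by decide

lemma no32 : ∀ s ∈ Sq32, ∀ t ∈ Sq32, (s ∈ Un32 ∨ t ∈ Un32) →
    2 * s ^ 2 - 4 * s * t - 2 * t ^ 2 ∉ Sq32 := by decide

lemma no_sol [Fact (Nat.Prime 2)] (w e N : ℤ_[2])
    (hwe : ¬ (((2 : ℕ) : ℤ_[2]) ∣ w ∧ ((2 : ℕ) : ℤ_[2]) ∣ e)) :
    N ^ 2 ≠ 2 * w ^ 4 - 4 * w ^ 2 * e ^ 2 - 2 * e ^ 4 := by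
  intro h
  have hun : ∀ x : ℤ_[2], ¬ ((2 : ℕ) : ℤ_[2]) ∣ x → IsUnit x := by
    intro x hx
    by_contra hu
    apply hx
    rw [← Pool.Agent.U115.TP.toZMod_eq_zero, ← RingHom.mem_ker, PadicInt.ker_toZMod]
    exact (IsLocalRing.mem_maximalIdeal x).2 hu
  let φ : ℤ_[2] →+* ZMod 32 := (PadicInt.toZModPow 5 : ℤ_[2] →+* ZMod (2 ^ 5))
  have hφ : ∀ x : ℤ_[2], IsUnit x → φ x ^ 2 ∈ Un32 := by
    intro x hx
    obtain ⟨v, hv⟩ := hx.exists_right_inv
    refine un32 (φ x) (φ v) ?_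
    rw [← map_mul, hv, map_one]
  have h3 := congrArg φ h
  simp only [map_mul, map_sub, map_pow, map_ofNat] at h3
  have h4 : φ N ^ 2 = 2 * (φ w ^ 2) ^ 2 - 4 * (φ w ^ 2) * (φ e ^ 2) - 2 * (φ e ^ 2) ^ 2 := by
    rw [h3]
    ring
  refine no32 _ (sq32 (φ w)) _ (sq32 (φ e)) ?_ (h4 ▸ sq32 (φ N))
  by_cases h1 : ((2 : ℕ) : ℤ_[2]) ∣ w
  · exact Or.inr (hφ e (hun e fun h2 => hwe ⟨h1, h2⟩))
  · exact Or.inl (hφ w (hun w h1))

lemma cases_of_dvd {d : ℤ} (h : d.natAbs ∣ 4) (hd : Squarefree d) :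
    d = 1 ∨ d = -1 ∨ d = 2 ∨ d = -2 := by
  have h1 : d.natAbs ≤ 4 := Nat.le_of_dvd (by norm_num) h
  have h4 : ¬ (4 : ℤ) ∣ d := by
    intro h4
    have := hd 2 (by simpa using h4)
    rw [Int.isUnit_iff] at this
    omega
  have h0 : d ≠ 0 := hd.ne_zero
  have h3 : d.natAbs ≠ 3 := by
    intro h3
    rw [h3] at h
    revert h
    decide
  omega

/-- the Selmer group of the first isogeny -/
theorem selSet_one : SelSet 2 2 = {1, 2} := by
  ext d
  simp only [Set.mem_insert_iff, Set.mem_singleton_iff]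
  constructor
  · intro h
    have h1 := dvd_of_mem h
    have h2 : 0 < d := by
      by_contra hd
      have hd0 : d ≠ 0 := h.1.ne_zero
      have hdR : (d : ℝ) < 0 := by
        have : d < 0 := by omega
        exact_mod_cast this
      obtain ⟨N, M, e, hMe, hN⟩ := h.2.1
      have h5 : (d : ℝ) * N ^ 2 = (d * M ^ 2 + e ^ 2) ^ 2 + e ^ 4 := by
        rw [hN]
        push_cast
        field_simp
        ring
      have h6 : (d : ℝ) * N ^ 2 ≤ 0 := mul_nonpos_of_nonpos_of_nonneg hdR.le (sq_nonneg N)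
      have h7 : e ^ 4 ≤ 0 := by nlinarith [sq_nonneg ((d : ℝ) * M ^ 2 + e ^ 2)]
      have he : e = 0 := by
        have : e ^ 4 = 0 := le_antisymm h7 (by positivity)
        exact pow_eq_zero_iff (by norm_num) |>.1 this
      rw [he] at h5
      have h8 : ((d : ℝ) * M ^ 2) ^ 2 ≤ 0 := by nlinarith
      have h9 : (d : ℝ) * M ^ 2 = 0 := by
        have : ((d : ℝ) * M ^ 2) ^ 2 = 0 := le_antisymm h8 (sq_nonneg _)
        exact pow_eq_zero_iff (by norm_num) |>.1 this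
      have hM : M = 0 := by
        rcases mul_eq_zero.1 h9 with h10 | h10
        · exact absurd h10 hdR.ne
        · exact pow_eq_zero_iff (by norm_num) |>.1 h10
      rcases hMe with h10 | h10
      · exact h10 hM
      · exact h10 he
    have h3 : d.natAbs ≤ 2 := Nat.le_of_dvd (by norm_num) h1
    omega
  · rintro (rfl | rfl)
    · exact one_mem 2 2
    · refine ⟨Int.prime_two.squarefree, ⟨1, 0, 1, Or.inr one_ne_zero, ?_⟩, fun p _ =>
        ⟨1, 0, 1, Or.inr one_ne_zero, ?_⟩⟩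
      · push_cast
        norm_num
      · have : (2 : ℚ_[p]) ≠ 0 := by norm_num
        push_cast
        field_simp
        norm_num

/-- the Selmer group of the dual isogeny -/
theorem selSet_two : SelSet (-4) (-4) = {1, -1} := by
  have : Fact (Nat.Prime 2) := ⟨Nat.prime_two⟩
  have h20 : (2 : ℤ_[2]) ≠ 0 := by norm_num
  ext d
  simp only [Set.mem_insert_iff, Set.mem_singleton_iff]
  constructor
  · intro h
    rcases cases_of_dvd (dvd_of_mem h) h.1 with h1 | h1 | h1 | h1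
    · exact Or.inl h1
    · exact Or.inr h1
    · exfalso
      subst h1
      obtain ⟨w, e, N, hwe, hN⟩ := lsol_of_qs h.1 (h.2.2 2)
      refine no_sol w e N hwe (mul_left_cancel₀ h20 ?_)
      push_cast at hN
      linear_combination hN
    · exfalso
      subst h1
      obtain ⟨w, e, N, hwe, hN⟩ := lsol_of_qs h.1 (h.2.2 2)
      refine no_sol e w N (fun h => hwe ⟨h.2, h.1⟩) (mul_left_cancel₀ h20 ?_)
      push_cast at hN
      linear_combination -hN
  · rintro (rfl | rfl)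
    · exact one_mem (-4) (-4)
    · refine ⟨isUnit_one.neg.squarefree, ⟨2, 0, 1, Or.inr one_ne_zero, ?_⟩, fun p _ =>
        ⟨2, 0, 1, Or.inr one_ne_zero, ?_⟩⟩
      · push_cast
        norm_num
      · push_cast
        ring

theorem sel_prod : sel 2 2 * sel (-2 * 2) (2 ^ 2 - 4 * 2) = 4 := by
  have e1 : sel 2 2 = 2 := by
    unfold sel
    rw [selSet_one, Set.ncard_pair (by norm_num)]
  have e2 : sel (-2 * 2) (2 ^ 2 - 4 * 2) = 2 := by
    have h1 : (-2 * 2 : ℤ) = -4 := by norm_num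
    have h2 : (2 ^ 2 - 4 * 2 : ℤ) = -4 := by norm_num
    rw [h1, h2]
    unfold sel
    rw [selSet_two, Set.ncard_pair (by norm_num)]
  rw [e1, e2]

end Pool.Agent.U860.DS
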