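import Pool.Agent.U860.DS.Short

/-!
# Points of finite order over the 2-adic numbers, general case
-/

set_option autoImplicit false
set_option linter.all false

open WeierstrassCurve

namespace Pool.Agent.U860.DS

open Pool.Agent.TH954 Pool.Agent.R425.D Pool.Agent.Y700

open scoped Classical

/-- the curve `y² = x³ + a x² + b x` over `ℚ_2` -/
noncomputable def E2 (a b : ℤ) : WeierstrassCurve ℚ_[2] := ⟨0, (a : ℚ_[2]), 0, (b : ℚ_[2]), 0⟩

/-- `0` and `(0, 0)` are the only points of finite order over the 2-adic numbers -/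
def OnlyTwo (a b : ℤ) : Prop := ∀ (P : (E2 a b).toAffine.Point) (m : ℕ), 0 < m → m • P = 0 →
  P = 0 ∨ ∃ h, P = .some 0 0 h

variable {a b : ℤ} {D : ℕ}

lemma e2_delta : (E2 a b).Δ = 16 * (b : ℚ_[2]) ^ 2 * ((a : ℚ_[2]) ^ 2 - 4 * b) := by
  simp only [E2, WeierstrassCurve.Δ, WeierstrassCurve.b₂, WeierstrassCurve.b₄, WeierstrassCurve.b₆,
    WeierstrassCurve.b₈]
  ring

lemma e2_delta_ne (hb : b ≠ 0) (hc : a ^ 2 - 4 * b ≠ 0) : (E2 a b).Δ ≠ 0 := by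
  rw [e2_delta]
  have h1 : (b : ℚ_[2]) ≠ 0 := by exact_mod_cast hb
  have h2 : (a : ℚ_[2]) ^ 2 - 4 * b ≠ 0 := by exact_mod_cast hc
  exact mul_ne_zero (mul_ne_zero (by norm_num) (pow_ne_zero 2 h1)) h2

lemma bs_a4 : (bs (sh a b D) ℚ_[2]).a₄ = -27 * ((a : ℚ_[2]) ^ 2 - 3 * b) * (D : ℚ_[2]) ^ 2 := by
  show ((-27 * (a ^ 2 - 3 * b) * (D : ℤ) ^ 2 : ℤ) : ℚ_[2]) = _
  push_cast
  ring

lemma bs_a6 : (bs (sh a b D) ℚ_[2]).a₆ =
    27 * (2 * (a : ℚ_[2]) ^ 3 - 9 * a * b) * (D : ℚ_[2]) ^ 3 := by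
  show ((27 * (2 * a ^ 3 - 9 * a * b) * (D : ℤ) ^ 3 : ℤ) : ℚ_[2]) = _
  push_cast
  ring

/-- over the 2-adic numbers the twist is trivial -/
theorem sh_vr2 {s : ℚ_[2]} (hs : s ^ 2 = D) (hs0 : s ≠ 0) :
    VR (bs (sh a b D) ℚ_[2]) (E2 a b) (3 * s) (3 * (a * D)) 0 0 where
  u0 := mul_ne_zero (by norm_num) hs0
  e1 := by
    show 3 * s * (0 : ℚ_[2]) = ((0 : ℤ) : ℚ_[2]) + 2 * 0
    push_cast
    ring
  e2 := by
    show (3 * s) ^ 2 * (a : ℚ_[2]) = ((0 : ℤ) : ℚ_[2]) - 0 * ((0 : ℤ) : ℚ_[2]) + 3 * (3 * (a * D)) - 0 ^ 2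
    push_cast
    linear_combination 9 * (a : ℚ_[2]) * hs
  e3 := by
    show (3 * s) ^ 3 * (0 : ℚ_[2]) = ((0 : ℤ) : ℚ_[2]) + (3 * (a * D)) * ((0 : ℤ) : ℚ_[2]) + 2 * 0
    push_cast
    ring
  e4 := by
    show (3 * s) ^ 4 * (b : ℚ_[2]) =
      (bs (sh a b D) ℚ_[2]).a₄ - 0 * ((0 : ℤ) : ℚ_[2]) +
      2 * (3 * (a * D)) * ((0 : ℤ) : ℚ_[2]) - (0 + (3 * (a * D)) * 0) * ((0 : ℤ) : ℚ_[2]) +
      3 * (3 * (a * D)) ^ 2 - 2 * 0 * 0
    rw [bs_a4]
    push_cast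
    linear_combination 81 * (b : ℚ_[2]) * (s ^ 2 + D) * hs
  e6 := by
    show (3 * s) ^ 6 * (0 : ℚ_[2]) = (bs (sh a b D) ℚ_[2]).a₆ +
      (3 * (a * D)) * (bs (sh a b D) ℚ_[2]).a₄ +
      (3 * (a * D)) ^ 2 * ((0 : ℤ) : ℚ_[2]) + (3 * (a * D)) ^ 3 - 0 * ((0 : ℤ) : ℚ_[2]) - 0 ^ 2 -
      (3 * (a * D)) * 0 * ((0 : ℤ) : ℚ_[2])
    rw [bs_a4, bs_a6]
    push_cast
    ring

/-- the points of finite order of the twist are rational -/
theorem torRat_of (hb : b ≠ 0) (hc : a ^ 2 - 4 * b ≠ 0) (h2 : OnlyTwo a b) {s : ℚ_[2]}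
    (hs : s ^ 2 = D) (hs0 : s ≠ 0) : TorRat (sh a b D) := by
  intro P m hm h
  have hvr := sh_vr2 (a := a) (b := b) hs hs0
  have hΔ := e2_delta_ne hb hc
  obtain ⟨P', rfl⟩ : ∃ P', hvr.equiv hΔ P' = P := ⟨(hvr.equiv hΔ).symm P, AddEquiv.apply_symm_apply _ _⟩
  have h' : m • P' = 0 := by
    apply (hvr.equiv hΔ).injective
    rw [map_nsmul, map_zero]
    exact h
  rcases h2 P' m hm h' with rfl | ⟨h0, rfl⟩
  · refine ⟨.zero, fun j => ?_⟩
    rw [map_zero]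
    fin_cases j <;> simp [crd, crd_zero]
  · rw [VR.equiv_apply, VR.fn_some]
    have hX : (3 * s) ^ 2 * 0 + 3 * ((a : ℚ_[2]) * D) = algebraMap ℚ ℚ_[2] (3 * (a * D) : ℚ) := by
      simp only [map_mul, map_intCast, map_natCast, map_ofNat]
      ring
    have hY : (3 * s) ^ 3 * 0 + (3 * s) ^ 2 * 0 * 0 + 0 = algebraMap ℚ ℚ_[2] 0 := by
      rw [map_zero]
      ring
    have hns : (bs (sh a b D) ℚ).toAffine.Nonsingular (3 * (a * D) : ℚ) 0 := by
      have h1 : ((bs (sh a b D) ℚ).map (algebraMap ℚ ℚ_[2])).toAffine.Nonsingular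
          (algebraMap ℚ ℚ_[2] (3 * (a * D) : ℚ)) (algebraMap ℚ ℚ_[2] 0) := by
        have e1 : (bs (sh a b D) ℚ).map (algebraMap ℚ ℚ_[2]) = bs (sh a b D) ℚ_[2] := bs_map _ _
        rw [e1, ← hX, ← hY]
        exact nonsing (hvr.delta_ne hΔ) (hvr.eqn.2 h0.1)
      exact (Affine.map_nonsingular (bs (sh a b D) ℚ).toAffine
        (algebraMap ℚ ℚ_[2]).injective _ _).1 h1
    refine ⟨.some (3 * (a * D) : ℚ) 0 hns, fun j => ?_⟩
    fin_cases j
    · exact hX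
    · exact hY
    · show (1 : ℚ_[2]) = algebraMap ℚ ℚ_[2] 1
      rw [map_one]

/-- a family of examples -/
theorem onlyTwo_of (ha : Even a) (hb : b % 4 = 2) : OnlyTwo a b := by
  intro P m hm h
  have hb0 : b ≠ 0 := by
    rintro rfl
    norm_num at hb
  have hc0 : a ^ 2 - 4 * b ≠ 0 := by
    obtain ⟨c, rfl⟩ := ha.two_dvd
    intro h
    have h1 : c ^ 2 = b := by linarith
    rcases Int.even_or_odd c with ⟨t, rfl⟩ | ⟨t, rfl⟩
    · rw [← h1] at hb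
      ring_nf at hb
      omega
    · rw [← h1] at hb
      ring_nf at hb
      omega
  have hvr := sh_vr2 (a := a) (b := b) (D := 1) (s := 1) (by norm_num) one_ne_zero
  have hΔ := e2_delta_ne hb0 hc0
  have hm' : m • hvr.equiv hΔ P = 0 := by
    rw [← map_nsmul, h, map_zero]
  obtain ⟨y, hy⟩ := sh_tor (D := 1) ha hb odd_one (hvr.equiv hΔ P) m hm hm'
  -- the second coordinate is zero
  obtain ⟨a', rfl⟩ := ha.two_dvd
  obtain ⟨b', hb', hbo⟩ : ∃ b', b = 2 * b' ∧ Odd b' := ⟨b / 2, by omega, by rw [Int.odd_iff]; omega⟩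
  subst hb'
  have hSI := si_bs (sh (2 * a') (2 * b') 1) rfl rfl rfl
  have n4 : ‖(bs (sh (2 * a') (2 * b') 1) ℚ_[2]).a₄‖ = 1 / 2 := by
    have e : (bs (sh (2 * a') (2 * b') 1) ℚ_[2]).a₄ =
        2 * ((-27 * (2 * a' ^ 2 - 3 * b') : ℤ) : ℚ_[2]) := by
      rw [bs_a4]
      push_cast
      ring
    rw [e, norm_mul, norm_two2, norm_odd, mul_one]
    refine Odd.mul (by decide) ?_
    refine Even.sub_odd ?_ (Odd.mul (by decide) hbo)
    exact even_two_mul _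
  have n6 : ‖(bs (sh (2 * a') (2 * b') 1) ℚ_[2]).a₆‖ ≤ 1 / 4 := by
    have e : (bs (sh (2 * a') (2 * b') 1) ℚ_[2]).a₆ =
        2 * (2 * ((27 * (4 * a' ^ 3 - 9 * a' * b') : ℤ) : ℚ_[2])) := by
      rw [bs_a6]
      push_cast
      ring
    rw [e, norm_mul, norm_mul, norm_two2]
    have := Padic.norm_int_le_one (p := 2) (27 * (4 * a' ^ 3 - 9 * a' * b'))
    nlinarith
  have h2 := tor_two hSI norm_two2 (fun x hx => norm_half hx) n4 n6 (hvr.equiv hΔ P) m hm hm'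
  match P with
  | .zero => exact Or.inl rfl
  | .some x y n =>
    right
    rw [VR.equiv_apply, VR.fn_some] at h2
    have h20 : (2 : ℚ_[2]) ≠ 0 := by norm_num
    have hY := two_tor hSI h20 _ h2
    have hy0 : y = 0 := by
      have : 27 * y = 0 := by linear_combination hY
      exact (mul_eq_zero.1 this).resolve_left (by norm_num)
    subst hy0
    have heq := (Affine.equation_iff _ _).1 n.1
    have h3 : x * (x ^ 2 + ((2 * a' : ℤ) : ℚ_[2]) * x + ((2 * b' : ℤ) : ℚ_[2])) = 0 := by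
      simp only [E2] at heq
      linear_combination -heq
    have hx0 : x = 0 := by
      refine (mul_eq_zero.1 h3).resolve_right (no_root ?_ ?_)
      · rw [Int.cast_mul, norm_mul]
        have e : ((2 : ℤ) : ℚ_[2]) = 2 := by norm_num
        rw [e, norm_two2]
        have := Padic.norm_int_le_one (p := 2) a'
        linarith
      · rw [Int.cast_mul, norm_mul, norm_odd hbo, mul_one]
        have e : ((2 : ℤ) : ℚ_[2]) = 2 := by norm_num
        rw [e, norm_two2]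
    subst hx0
    exact ⟨n, rfl⟩

end Pool.Agent.U860.DS
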