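import Pool.Agent.U860.DS.Short
import Pool.Agent.U860.DS.Ex
import Pool.Agent.U115.GE.Dens
import Pool.Agent.U739.GE.GOOD

/-!
# The twists of the elliptic curves with a rational point of order two
-/

set_option autoImplicit false
set_option linter.style.haveILetI false
set_option linter.unusedSectionVars false
set_option linter.unusedVariables false

open scoped Classical

namespace Pool.Agent.U860.DS

open Finset
open Pool.Agent.TH841.NF.D (Sha)
open Pool.Agent.U115.GE (Class sel twE cork cfg class_hg class_kap prod_eq dens)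
open Pool.Agent.U115.GD (Cfg Ok SS Cl dl da db)

/-- `E_D(ℚ)` is finite and `Ш(E_D/ℚ)[2^∞] = 0` -/
def Triv (a b : ℤ) (D : ℕ) : Prop :=
  Finite (twE a b D).toAffine.Point ∧ ∀ (n : ℕ) (x : Sha (twE a b D)), 2 ^ n • x = 0 → x = 0

variable {a b : ℤ}

theorem b_ne (nb : ¬ IsSquare b) : b ≠ 0 := by
  rintro rfl
  exact nb ⟨0, by norm_num⟩

theorem c_ne (nc : ¬ IsSquare (a ^ 2 - 4 * b)) : a ^ 2 - 4 * b ≠ 0 := by
  intro h
  exact nc ⟨0, by rw [h]; norm_num⟩

/-- the criterion -/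
theorem triv_iff (nb : ¬ IsSquare b) (nc : ¬ IsSquare (a ^ 2 - 4 * b))
    (h4 : sel a b * sel (-2 * a) (a ^ 2 - 4 * b) = 4) {D : ℕ} (hD : Class a b D) :
    Triv a b D ↔ cork a b D = 0 := by
  have hg := class_hg (b_ne nb) (c_ne nc) hD
  have h1 := hg.iff Pool.Agent.U739.GE.t_GOOD Pool.Agent.U796.GE.t_BND nb nc h4 (prod_eq hD.1)
  rw [class_kap (b_ne nb) (c_ne nc) hD] at h1
  refine h1.trans ⟨fun h => ?_, fun h => by rw [h, pow_zero]⟩
  by_contra h2
  have := Nat.one_lt_two_pow h2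
  omega

/-- the exact proportion -/
theorem dens_triv (nb : ¬ IsSquare b) (nc : ¬ IsSquare (a ^ 2 - 4 * b))
    (h4 : sel a b * sel (-2 * a) (a ^ 2 - 4 * b) = 4) :
    Filter.Tendsto (fun X : ℕ =>
      (((Icc 1 X).filter fun D => Class a b D ∧ Triv a b D).card : ℝ) /
      (((Icc 1 X).filter fun D => Class a b D).card : ℝ)) Filter.atTop
      (nhds Pool.Agent.Y703.CQ.c2) := by
  refine (dens nb nc).congr fun X => congrArg₂ (fun a b : ℕ => (a : ℝ) / (b : ℝ)) ?_ rfl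
  refine congrArg Finset.card (Finset.ext fun D => ?_)
  rw [Finset.mem_filter, Finset.mem_filter]
  exact and_congr_right fun _ => and_congr_right fun h => (triv_iff nb nc h4 h).symm

lemma card_filter_congr' {s : Finset ℕ} {p q : ℕ → Prop} (i : DecidablePred p)
    (j : DecidablePred q) (h : ∀ x, p x ↔ q x) :
    (@Finset.filter ℕ p i s).card = (@Finset.filter ℕ q j s).card := by
  congr 1
  ext x
  simp only [Finset.mem_filter, h]

/-- there are many twists in the class -/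
theorem low (nb : ¬ IsSquare b) (nc : ¬ IsSquare (a ^ 2 - 4 * b)) :
    ∃ (c : ℝ) (X₀ : ℕ), 0 < c ∧ ∀ X : ℕ, X₀ ≤ X →
      c * X / Real.log X ≤ (((Icc 1 X).filter fun D => Class a b D).card : ℝ) := by
  obtain ⟨hok, -, -, hcl⟩ := Pool.Agent.U643.GE.t_CFG a b (b_ne nb) (c_ne nc) nb nc
  obtain ⟨c, X₀, hc, h⟩ := Pool.Agent.U2.GD.t_LOW Pool.Agent.U2.GD.t_MER Pool.Agent.U2.GD.t_CHE
    (cfg a b) hok
  refine ⟨c, max X₀ 3, hc, fun X hX => ?_⟩
  have hX0 : X₀ ≤ X := (le_max_left _ _).trans hX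
  have hX3 : 3 ≤ X := (le_max_right _ _).trans hX
  have hcard : ((Icc 1 X).filter fun D => Class a b D).card = (SS (cfg a b) X).card := by
    have h1 := Pool.Agent.U643.GD.card_eq (cfg a b) X (fun _ => True)
    rw [Finset.filter_true] at h1
    have h2 : ∀ D, Class a b D ↔ (Squarefree D ∧ Cl (cfg a b) D.primeFactors ∧ True) := by
      intro D
      rw [hcl D]
      tauto
    exact (card_filter_congr' _ _ h2).trans h1
  rw [hcard]
  refine le_trans ?_ (h X hX0)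
  have hX3' : (3 : ℝ) ≤ X := by exact_mod_cast hX3
  have hlog : 1 ≤ Real.log X := by
    rw [Real.le_log_iff_exp_le (by linarith)]
    exact (Real.exp_one_lt_d9.le.trans (by norm_num)).trans hX3'
  have hdl : 0 ≤ dl (cfg a b) := by
    unfold dl da db
    positivity
  have h2 : (Real.log X)⁻¹ ≤ (Real.log X) ^ (-1 + dl (cfg a b) : ℝ) := by
    rw [← Real.rpow_neg_one]
    exact Real.rpow_le_rpow_of_exponent_le hlog (by linarith)
  rw [div_eq_mul_inv]
  exact mul_le_mul_of_nonneg_left h2 (by positivity)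

/-- the short equation -/
theorem short_of_triv (nb : ¬ IsSquare b) (nc : ¬ IsSquare (a ^ 2 - 4 * b)) {D : ℕ} (hD : D ≠ 0)
    (h : Triv a b D) : Finite (bs (sh a b D) ℚ).toAffine.Point ∧
      ∀ (j : ℕ) (s : Sha (bs (sh a b D) ℚ)), 2 ^ j • s = 0 → 1 • s = 0 := by
  have hb := b_ne nb
  have hc := c_ne nc
  have hb' : (b : ℚ) ≠ 0 := by exact_mod_cast hb
  have hc' : (a : ℚ) ^ 2 - 4 * b ≠ 0 := by exact_mod_cast hc
  have hD' : (D : ℚ) ≠ 0 := by exact_mod_cast hD
  have hvr := sh_vr a b D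
  have hΔ : (⟨0, (a : ℚ) * (D : ℚ), 0, (b : ℚ) * (D : ℚ) ^ 2, 0⟩ : WeierstrassCurve ℚ).Δ ≠ 0 := by
    have e : (⟨0, (a : ℚ) * (D : ℚ), 0, (b : ℚ) * (D : ℚ) ^ 2, 0⟩ : WeierstrassCurve ℚ).Δ =
        16 * b ^ 2 * (a ^ 2 - 4 * b) * D ^ 6 := by
      simp only [WeierstrassCurve.Δ, WeierstrassCurve.b₂, WeierstrassCurve.b₄, WeierstrassCurve.b₆,
        WeierstrassCurve.b₈]
      ring
    rw [e]
    exact mul_ne_zero (mul_ne_zero (mul_ne_zero (by norm_num) (pow_ne_zero 2 hb')) hc')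
      (pow_ne_zero 6 hD')
  obtain ⟨h1, h2⟩ := h
  have hfin : Finite (⟨0, (a : ℚ) * (D : ℚ), 0, (b : ℚ) * (D : ℚ) ^ 2, 0⟩ :
      WeierstrassCurve ℚ).toAffine.Point := h1
  refine ⟨Finite.of_equiv _ (Equiv.ofBijective _ (hvr.fn_bij hΔ)), fun j s hs => ?_⟩
  have h3 : ∀ s : Sha (bs (sh a b D) ℚ), 2 • s = 0 → s = 0 :=
    Pool.Agent.R425.D.sha_vr hvr hΔ (fun s hs => h2 1 s (by rw [pow_one]; exact hs))
  rw [one_smul]
  induction j generalizing s with
  | zero => rwa [pow_zero, one_smul] at hs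
  | succ j ih =>
    rw [pow_succ, mul_smul] at hs
    exact h3 s (ih _ hs)

end Pool.Agent.U860.DS
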