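import Pool.Agent.R425.D.Glob

/-!
# Selmer classes of two-power order of curves such that `Ш[2^∞]` has bounded exponent

The versions, for curves which may have rational points of order two, of the lemmas of
`Pool/Agent/R425/D/Coc.lean` and `Pool/Agent/R425/D/Glob.lean`.
-/

set_option autoImplicit false
set_option linter.all false

open IsDedekindDomain NumberField WeierstrassCurve MvPolynomial

namespace Pool.Agent.U860.DS

open Pool.Agent.TH954 Pool.Agent.R425.D

open scoped Classical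

section

variable {K : Type} [Field K] [NumberField K] {E : WeierstrassCurve K}

/-- Selmer classes of two-power order come from rational points, if `Ш[2^∞]` is killed by `M`. -/
theorem cocycle_mod (M : ℕ)
    (hsha : ∀ (j : ℕ) (s : Pool.Agent.TH841.NF.D.Sha E), 2 ^ j • s = 0 → M • s = 0) (k : ℕ)
    (ξ : (AlgebraicClosure K ≃ₐ[K] AlgebraicClosure K) → AlgPt E K) (hξ : IsCocycle E ξ)
    (hk : ∀ σ, 2 ^ k • ξ σ = 0)
    (hv : ∀ v : HeightOneSpectrum (𝓞 K), TrivialOver E ξ (v.adicCompletion K))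
    (hw : ∀ w : InfinitePlace K, TrivialOver E ξ w.Completion) :
    ∃ (R : AlgPt E K) (y : (E.baseChange K).toAffine.Point), incl E K y = 2 ^ k • R ∧
      ∀ σ, M • ξ σ = act E σ R - R := by
  have hcoc : Pool.Agent.TH841.NF.D.IsShaCoc E ξ :=
    ⟨coc_of hξ, fun v => loc_of hξ (hv v), fun w => loc_of hξ (hw w)⟩
  let x : Pool.Agent.TH841.NF.D.shaCoc E := ⟨ξ, hcoc⟩
  have hx0 : 2 ^ k • x = 0 := by
    apply Subtype.ext
    funext σ
    exact hk σ
  let q : Pool.Agent.TH841.NF.D.shaCoc E →+ Pool.Agent.TH841.NF.D.Sha E :=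
    QuotientAddGroup.mk' ((Pool.Agent.TH841.SH.D.cob E).addSubgroupOf
      (Pool.Agent.TH841.NF.D.shaCoc E))
  have hq : q (M • x) = 0 := by
    rw [map_nsmul]
    refine hsha k _ ?_
    rw [← map_nsmul, hx0, map_zero]
  have hq' : M • x ∈ (Pool.Agent.TH841.SH.D.cob E).addSubgroupOf
      (Pool.Agent.TH841.NF.D.shaCoc E) := (QuotientAddGroup.eq_zero_iff (M • x)).1 hq
  have hcob : Pool.Agent.TH841.SH.D.IsCob E ((M • x : Pool.Agent.TH841.NF.D.shaCoc E) :
      Pool.Agent.TH841.SH.D.Coch E) := hq'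
  rw [AddSubgroup.coe_nsmul] at hcob
  obtain ⟨R, hR'⟩ : ∃ R : AlgPt E K, ∀ σ, M • ξ σ = act E σ R - R := hcob
  obtain ⟨y, hy⟩ : ∃ y : (E.baseChange K).toAffine.Point, incl E K y = 2 ^ k • R := by
    refine exists_of_fixed (L := K) (2 ^ k • R) fun σ => ?_
    have e1 : act E σ R = R + M • ξ σ := by
      rw [hR' σ]
      abel
    have e2 : 2 ^ k • (M • ξ σ) = 0 := by
      rw [← mul_smul, mul_comm, mul_smul, hk]
      exact nsmul_zero M
    rw [act_nsmul, e1, ns_add, e2, add_zero]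
  exact ⟨R, y, hy, hR'⟩

/-- If the groups `E_i(K)` are finite and `Ш(E_i/K)[2^∞]` is killed by `M i`, then there are
`c i > 0` such that for all `k`, if `P` survives the descent by `2 ^ k`-coverings, then
`c i • P i` is divisible by `2 ^ k`. -/
theorem divisible_mod {n : ℕ} (E : Fin n → WeierstrassCurve K) (M : Fin n → ℕ)
    (hfin : ∀ i, Finite (E i).toAffine.Point)
    (hsha : ∀ i, ∀ (j : ℕ) (s : Pool.Agent.TH841.NF.D.Sha (E i)), 2 ^ j • s = 0 → M i • s = 0) (k : ℕ)
    (ξ : (i : Fin n) → (AlgebraicClosure K ≃ₐ[K] AlgebraicClosure K) → AlgPt (E i) K)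
    (h1 : ∀ i, IsCocycle (E i) (ξ i)) (h2 : ∀ i σ, 2 ^ k • ξ i σ = 0)
    (h3 : ∀ i, ∀ v : HeightOneSpectrum (𝓞 K), TrivialOver (E i) (ξ i) (v.adicCompletion K))
    (h4 : ∀ i, ∀ w : InfinitePlace K, TrivialOver (E i) (ξ i) w.Completion)
    (L : Type) [Field L] [CharZero L] [Algebra K L]
    (P : (i : Fin n) → ((E i).baseChange L).toAffine.Point)
    (hP : ∃ (ι : AlgebraicClosure K →ₐ[K] AlgebraicClosure L) (Q : (i : Fin n) → AlgPt (E i) L),
      (∀ i, 2 ^ k • Q i = incl (E i) L (P i)) ∧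
        ∀ i σ τ, Compat ι σ τ → pm (E i) ι (ξ i τ) = act (E i) σ (Q i) - Q i) :
    ∀ i, ∃ z : ((E i).baseChange L).toAffine.Point,
      (Nat.card (E i).toAffine.Point * M i) • P i = 2 ^ k • z := by
  have hT : ∀ i, ∃ (R : AlgPt (E i) K) (y : ((E i).baseChange K).toAffine.Point),
      incl (E i) K y = 2 ^ k • R ∧ ∀ σ, M i • ξ i σ = act (E i) σ R - R := fun i =>
    cocycle_mod (M i) (hsha i) k (ξ i) (h1 i) (h2 i) (h3 i) (h4 i)
  choose R y hy hR using hT
  obtain ⟨ι, Q, hPQ, hQ⟩ := hP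
  intro i
  have hfix : ∀ σ : AlgebraicClosure L ≃ₐ[L] AlgebraicClosure L,
      act (E i) σ (M i • Q i - pm (E i) ι (R i)) = M i • Q i - pm (E i) ι (R i) := by
    intro σ
    obtain ⟨τ, hτ⟩ := exists_compat ι σ
    have e1 : act (E i) σ (Q i) = Q i + pm (E i) ι (ξ i τ) := by
      rw [hQ i σ τ hτ]
      abel
    have e2 : act (E i) τ (R i) = R i + M i • ξ i τ := by
      rw [hR i τ]
      abel
    have e3 : pm (E i) ι (M i • ξ i τ) = M i • pm (E i) ι (ξ i τ) := map_nsmul _ _ _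
    rw [act_sub, act_nsmul, act_pm ι hτ, e1, e2, map_add, ns_add, e3]
    abel
  obtain ⟨z, hz⟩ := exists_of_fixed _ hfix
  have := hfin i
  -- the order of the group of the rational points kills `y`
  have hy0 : Nat.card (E i).toAffine.Point • (y i) = 0 :=
    card_nsmul_eq_zero' (G := (E i).toAffine.Point)
  have hR0 : Nat.card (E i).toAffine.Point • (2 ^ k • R i) = 0 := by
    rw [← hy i, ← incl_nsmul, hy0]
    exact map_zero (pm (E i) (IsScalarTower.toAlgHom K K (AlgebraicClosure K)))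
  refine ⟨Nat.card (E i).toAffine.Point • z, incl_injective ?_⟩
  have e3 : 2 ^ k • (Nat.card (E i).toAffine.Point • pm (E i) ι (R i)) = 0 := by
    have e4 : pm (E i) ι (Nat.card (E i).toAffine.Point • (2 ^ k • R i)) =
        Nat.card (E i).toAffine.Point • (2 ^ k • pm (E i) ι (R i)) := by
      rw [map_nsmul, map_nsmul]
    rw [← mul_smul, mul_comm, mul_smul, ← e4, hR0, map_zero]
  rw [incl_nsmul, incl_nsmul, incl_nsmul, hz, ns_sub, ns_sub, e3, sub_zero, ← hPQ i,
    ← mul_smul, ← mul_smul, ← mul_smul]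
  congr 1
  ring

end

end Pool.Agent.U860.DS
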