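import Pool.Agent.R425.D.Div

/-!
# Points over the 2-adic numbers with multiples divisible by high powers of two
-/

set_option autoImplicit false
set_option linter.all false

open WeierstrassCurve Filter Topology MvPolynomial

namespace Pool.Agent.U860.DS

open Pool.Agent.TH954 Pool.Agent.R425.D

open scoped Classical

section

variable {L : Type} [NormedField L] [IsUltrametricDist L] [ProperSpace L] {W : WeierstrassCurve L}

/-- a point divisible by all powers of two has odd order (copy of `odd_of_div` of `R425/D/Odd`) -/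
theorem odd_of_div' (hW : SI W) (hD : 4 * W.a₄ ^ 3 + 27 * W.a₆ ^ 2 ≠ 0) (h2 : ‖(2 : L)‖ = 1 / 2)
    (P : W.toAffine.Point) (h : ∀ k : ℕ, ∃ z, P = 2 ^ k • z) : ∃ m : ℕ, Odd m ∧ m • P = 0 := by
  have h20 : (2 : L) ≠ 0 := by
    intro h
    rw [h, norm_zero] at h2
    norm_num at h2
  obtain ⟨N, hN0, hN⟩ := exists_expo' hW hD h20 2 (by norm_num)
  obtain ⟨a, m, hm, hNam⟩ := Nat.exists_eq_two_pow_mul_odd hN0.ne'
  refine ⟨m, hm, zero_of_big fun R hR => ?_⟩
  obtain ⟨r, hr⟩ := pow_unbounded_of_one_lt R (by norm_num : (1 : ℝ) < 4)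
  obtain ⟨z, hz⟩ := h (a + r)
  have e : m • P = 2 ^ r • (N • z) := by
    rw [hz, hNam, ← mul_smul, ← mul_smul]
    congr 1
    rw [pow_add]
    ring
  rw [e]
  have h5 := big_pow hW h2 (by norm_num : (1 : ℝ) < 2) (hN z) r
  refine big_mono ?_ h5
  have h7 : (0 : ℝ) < 4 ^ r := by positivity
  linarith

/-- If a closed set of points contains, for all `k`, points `P` such that the `c i • P i` are
divisible by `2 ^ k`, then it contains a point all of whose components have finite order. -/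
theorem loc_mod (h2 : ‖(2 : L)‖ = 1 / 2) {n : ℕ} (V : Fin n → WeierstrassCurve L)
    (hV : ∀ i, SI (V i)) (hD : ∀ i, 4 * (V i).a₄ ^ 3 + 27 * (V i).a₆ ^ 2 ≠ 0)
    (S : Set (MvPolynomial (Fin n × Fin 3) L)) (hS : ∀ f ∈ S, ∃ d, MultiHom d f)
    (c : Fin n → ℕ) (hc : ∀ i, 0 < c i)
    (hno : ∀ P : (i : Fin n) → (V i).toAffine.Point,
      (∀ f ∈ S, eval (fun p => crd (P p.1) p.2) f = 0) →
      ∃ i, ∀ m : ℕ, 0 < m → m • P i ≠ 0) :
    ∃ k : ℕ, ∀ P : (i : Fin n) → (V i).toAffine.Point,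
      (∀ f ∈ S, eval (fun p => crd (P p.1) p.2) f = 0) →
      ∃ i, ∀ Q : (V i).toAffine.Point, c i • P i ≠ 2 ^ k • Q := by
  have h20 : (2 : L) ≠ 0 := by
    intro h
    rw [h, norm_zero] at h2
    norm_num at h2
  by_contra hcon
  push Not at hcon
  choose P hPS Q hQ using hcon
  have hexp : ∀ i, ∃ N : ℕ, 0 < N ∧ ∀ T : (V i).toAffine.Point, Big 2 (N • T) := fun i =>
    exists_expo' (hV i) (hD i) h20 2 (by norm_num)
  choose N hN0 hN using hexp
  have hlim : ∀ i, ∃ Pi : (V i).toAffine.Point, ∀ j,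
      Tendsto (fun k => nc (P k i) j) (hyperfilter ℕ) (𝓝 (nc Pi j)) := fun i =>
    lim_point (hV i) (hD i) h20 (hyperfilter ℕ) (fun k => P k i)
  choose P' hP' using hlim
  obtain ⟨i, hi⟩ := hno P' (by
    intro f hf
    obtain ⟨d, hd⟩ := hS f hf
    rw [eval_nc hV hd]
    have h1 : Tendsto (fun k => eval (fun p : Fin n × Fin 3 => nc (P k p.1) p.2) f) (hyperfilter ℕ)
        (𝓝 (eval (fun p => nc (P' p.1) p.2) f)) := by
      have hcont : Continuous fun u : Fin n × Fin 3 → L => eval u f := MvPolynomial.continuous_eval f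
      refine (hcont.tendsto _).comp ?_
      rw [tendsto_pi_nhds]
      intro p
      exact hP' p.1 p.2
    refine tendsto_nhds_unique h1 (tendsto_const_nhds.congr fun k => ?_)
    exact ((eval_nc hV hd (P k)).1 (hPS k f hf)).symm)
  obtain ⟨a, m, hm, hNam⟩ := Nat.exists_eq_two_pow_mul_odd (hN0 i).ne'
  refine hi (m * c i) (Nat.mul_pos hm.pos (hc i)) (zero_of_big fun R hR => ?_)
  obtain ⟨d, hd0, -, hd⟩ := (hV i).exists_near h20 (hD i) hR
  have h1 : ∀ᶠ k in (hyperfilter ℕ : Filter ℕ), ∀ j, ‖nc (P k i) j - nc (P' i) j‖ < d := by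
    rw [eventually_all]
    intro j
    have := (hP' i j).sub (tendsto_const_nhds (x := nc (P' i) j))
    rw [sub_self] at this
    have h3 := this.norm
    rw [norm_zero] at h3
    exact h3.eventually_lt_const hd0
  obtain ⟨r, hr⟩ := pow_unbounded_of_one_lt R (by norm_num : (1 : ℝ) < 4)
  have hge : ∀ᶠ k in (hyperfilter ℕ : Filter ℕ), a + r ≤ k := by
    have hle : (hyperfilter ℕ : Filter ℕ) ≤ cofinite := hyperfilter_le_cofinite
    rw [Nat.cofinite_eq_atTop] at hle
    exact hle (eventually_ge_atTop (a + r))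
  obtain ⟨k, hk1, hk2⟩ := (h1.and hge).exists
  have h3 : Big R ((m * c i) • (P k i - P' i)) := (hV i).big_nsmul h20 hR (hd _ _ hk1) (m * c i)
  have h4 : Big R ((m * c i) • P k i) := by
    obtain ⟨t, rfl⟩ := Nat.exists_eq_add_of_le hk2
    have e : (m * c i) • P (a + r + t) i = 2 ^ (r + t) • (N i • Q (a + r + t) i) := by
      rw [mul_smul, hQ (a + r + t) i, hNam, ← mul_smul, ← mul_smul]
      congr 1
      rw [pow_add, pow_add, pow_add]
      ring
    rw [e]
    have h5 := big_pow (hV i) h2 (by norm_num : (1 : ℝ) < 2) (hN i (Q (a + r + t) i)) (r + t)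
    refine big_mono ?_ h5
    have h6 : (4 : ℝ) ^ r ≤ 4 ^ (r + t) := pow_le_pow_right₀ (by norm_num) (by omega)
    have h7 : (0 : ℝ) < 4 ^ (r + t) := by positivity
    linarith
  have e2 : (m * c i) • P' i = (m * c i) • P k i - (m * c i) • (P k i - P' i) := by
    rw [smul_sub]
    abel
  rw [e2]
  exact (hV i).big_sub h20 hR h4 h3

end

end Pool.Agent.U860.DS
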