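import Pool.Agent.R425.D.Div

/-!
# Curves without points of odd order over the 2-adic numbers
-/

set_option autoImplicit false
set_option linter.all false

open WeierstrassCurve

namespace Pool.Agent.U860.DS

open Pool.Agent.TH954 Pool.Agent.R425.D

open scoped Classical

section

variable {L : Type} [NormedField L] [IsUltrametricDist L] [ProperSpace L] {W : WeierstrassCurve L}

/-- points of odd order are not close to the origin (copy of `odd_big` of `R425/D/Odd`) -/
lemma odd_big' (hW : SI W) (h2 : ‖(2 : L)‖ = 1 / 2) {R : ℝ} (hR : 1 < R) {T : W.toAffine.Point}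
    (hT : Big R T) {m : ℕ} (hm : Odd m) (h : m • T = 0) : T = 0 := by
  refine zero_of_big fun R' hR' => ?_
  have hc : Nat.Coprime 2 m := (Nat.coprime_two_left).2 hm
  obtain ⟨r, hr⟩ := pow_unbounded_of_one_lt R' (by norm_num : (1 : ℝ) < 4)
  have hpos : 0 < Nat.totient m := Nat.totient_pos.2 hm.pos
  have h1 : 2 ^ (Nat.totient m * r) ≡ 1 [MOD m] := by
    rw [pow_mul]
    have := (Nat.ModEq.pow_totient hc).pow r
    rwa [one_pow] at this
  have h3 : 2 ^ (Nat.totient m * r) • T = T := by
    have h4 : 1 ≤ 2 ^ (Nat.totient m * r) := Nat.one_le_two_pow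
    obtain ⟨c, hc'⟩ := (Nat.modEq_iff_dvd' h4).1 h1.symm
    have e : 2 ^ (Nat.totient m * r) = c * m + 1 := by
      rw [mul_comm c m, ← hc']
      omega
    rw [e, add_smul, mul_smul, h, smul_zero, zero_add, one_smul]
  rw [← h3]
  refine big_mono ?_ (big_pow hW h2 hR hT (Nat.totient m * r))
  have h6 : (4 : ℝ) ^ r ≤ 4 ^ (Nat.totient m * r) :=
    pow_le_pow_right₀ (by norm_num) (Nat.le_mul_of_pos_left r hpos)
  have h7 : (0 : ℝ) < 4 ^ (Nat.totient m * r) := by positivity
  nlinarith

end

lemma norm_two2 : ‖(2 : ℚ_[2])‖ = 1 / 2 := by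
  have := Padic.norm_p (p := 2)
  rw [one_div]
  exact_mod_cast this

lemma norm_half {x : ℚ_[2]} (h : ‖x‖ < 1) : ‖x‖ ≤ 1 / 2 := by
  have h1 := (Padic.norm_le_pow_iff_norm_lt_pow_add_one x (-1)).2 (by simpa using h)
  norm_num at h1 ⊢
  exact h1

section

variable {L : Type} [NormedField L] [IsUltrametricDist L] [ProperSpace L] {W : WeierstrassCurve L}

/-- the doubles of all the points are close to the origin -/
theorem big_double (hW : SI W) (h2 : ‖(2 : L)‖ = 1 / 2) (hd : ∀ x : L, ‖x‖ < 1 → ‖x‖ ≤ 1 / 2)
    (ha : ‖W.a₄‖ = 1 / 2) (hb : ‖W.a₆‖ ≤ 1 / 4)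
    (P : W.toAffine.Point) : Big 4 (2 • P) := by
  have h3 : ‖(3 : L)‖ = 1 := by
    have e : (3 : L) = 1 + 2 := by norm_num
    rw [e, uadd_eq]
    · exact norm_one
    · rw [norm_one, h2]; norm_num
  match P with
  | .zero =>
    have : (2 • Affine.Point.zero : W.toAffine.Point) = 0 := smul_zero 2
    rw [this]
    exact big_zero _
  | .some x y n =>
    rcases lt_or_ge 1 ‖x‖ with hx1 | hx1
    · have h1 : Big ‖x‖ (Affine.Point.some x y n) := big_some.2 le_rfl
      refine big_mono ?_ (big_two hW h2 hx1 h1)
      linarith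
    · generalize hS : 2 • Affine.Point.some x y n = Sp
      match Sp with
      | .zero => exact big_zero _
      | .some X Y n' =>
        rw [two_nsmul] at hS
        obtain ⟨-, hy0, hX⟩ := hW.toShort.add_eq hS
        rw [big_some]
        have heq := hW.toShort.eqn n
        rcases lt_or_eq_of_le hx1 with hx | hx
        · -- x is even
          have hx2 := hd x hx
          have e1 : ‖3 * x ^ 2‖ ≤ 1 / 4 := by
            rw [norm_mul, norm_pow, h3, one_mul]
            nlinarith [norm_nonneg x]
          have e2 : ‖3 * x ^ 2 + W.a₄‖ = 1 / 2 := by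
            rw [add_comm, uadd_eq, ha]
            rw [ha]
            linarith
          have e3 : ‖y ^ 2‖ ≤ 1 / 4 := by
            rw [heq]
            refine uadd (uadd ?_ ?_) hb
            · rw [norm_pow]
              have : ‖x‖ ^ 3 ≤ (1 / 2 : ℝ) ^ 3 := pow_le_pow_left₀ (norm_nonneg _) hx2 3
              norm_num at this ⊢
              linarith
            · rw [norm_mul, ha]
              linarith
          have hy1 : ‖y‖ ≤ 1 / 2 := by
            rw [norm_pow] at e3
            nlinarith [norm_nonneg y]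
          have hyp : 0 < ‖y‖ := by
            rw [norm_pos_iff]
            rintro rfl
            exact hy0 (by simp)
          have e4 : ‖((3 * x ^ 2 + W.a₄) / (2 * y)) ^ 2‖ = 1 / ‖y‖ ^ 2 := by
            rw [norm_pow, norm_div, norm_mul, e2, h2]
            field_simp
          have e5 : 4 ≤ 1 / ‖y‖ ^ 2 := by
            rw [le_div_iff₀ (by positivity)]
            nlinarith
          have e6 : ‖2 * x‖ < 1 / ‖y‖ ^ 2 := by
            rw [norm_mul, h2]
            linarith
          rw [hX, usub_eq]
          · rw [e4]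
            exact e5
          · rw [e4]
            exact e6
        · -- x is a unit
          have e1 : ‖3 * x ^ 2‖ = 1 := by
            rw [norm_mul, norm_pow, h3, one_mul, hx, one_pow]
          have e2 : ‖3 * x ^ 2 + W.a₄‖ = 1 := by
            rw [uadd_eq, e1]
            rw [e1, ha]
            norm_num
          have e3 : ‖y ^ 2‖ = 1 := by
            have f1 : ‖x ^ 3‖ = 1 := by rw [norm_pow, hx, one_pow]
            have f2 : ‖x ^ 3 + W.a₄ * x‖ = 1 := by
              rw [uadd_eq, f1]
              rw [f1, norm_mul, ha, hx]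
              norm_num
            rw [heq, uadd_eq, f2]
            rw [f2]
            linarith
          have hy1 : ‖y‖ = 1 := by
            rw [norm_pow] at e3
            exact (pow_eq_one_iff_of_nonneg (norm_nonneg _) (by norm_num)).1 e3
          have e4 : ‖((3 * x ^ 2 + W.a₄) / (2 * y)) ^ 2‖ = 4 := by
            rw [norm_pow, norm_div, norm_mul, e2, h2, hy1]
            norm_num
          have e6 : ‖2 * x‖ < 4 := by
            rw [norm_mul, h2, hx]
            norm_num
          rw [hX, usub_eq]
          · rw [e4]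
          · rw [e4]
            exact e6

/-- no points of odd order -/
theorem no_odd (hW : SI W) (h2 : ‖(2 : L)‖ = 1 / 2) (hd : ∀ x : L, ‖x‖ < 1 → ‖x‖ ≤ 1 / 2)
    (ha : ‖W.a₄‖ = 1 / 2) (hb : ‖W.a₆‖ ≤ 1 / 4)
    (P : W.toAffine.Point) (m : ℕ) (hm : Odd m) (h : m • P = 0) : P = 0 := by
  have h1 := big_double hW h2 hd ha hb P
  have h2' : m • (2 • P) = 0 := by
    rw [← mul_smul, mul_comm, mul_smul, h, smul_zero]
  have h3 : 2 • P = 0 := odd_big' hW h2 (by norm_num) h1 hm h2'
  obtain ⟨c, rfl⟩ := hm
  rw [add_smul, one_smul, mul_comm, mul_smul, h3, smul_zero, zero_add] at h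
  exact h

end

end Pool.Agent.U860.DS
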