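import Pool.Agent.U860.DS.Thm

/-!
# The place of the rational numbers above two
-/

set_option autoImplicit false
set_option linter.all false

open NumberField IsDedekindDomain WithZero

namespace Pool.Agent.U860.DS

/-- copy of a lemma of `H82R3/EK/Fiber` -/
lemma liesOver' (K : Type) [Field K] [NumberField K] {p : ℕ} (hp : p.Prime)
    (v : HeightOneSpectrum (𝓞 K)) (h : ((p : ℕ) : 𝓞 K) ∈ v.asIdeal) :
    v.asIdeal.LiesOver (Ideal.span {(p : ℤ)}) := by
  have : Fact p.Prime := ⟨hp⟩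
  constructor
  have hmax : (Ideal.span {(p : ℤ)}).IsMaximal := Int.ideal_span_isMaximal_of_prime p
  refine hmax.eq_of_le ?_ ?_
  · exact (inferInstance : (v.asIdeal.under ℤ).IsPrime).ne_top
  · rw [Ideal.span_singleton_le_iff_mem, Ideal.mem_comap]
    simpa using h

/-- copy of a lemma of `R425/Ram` -/
theorem val_ram' (K : Type) [Field K] [NumberField K] {l : ℕ} (hl : l.Prime)
    (v : HeightOneSpectrum (𝓞 K)) (hv : ((l : ℕ) : 𝓞 K) ∈ v.asIdeal) :
    v.valuation K (l : K) = exp (-(v.asIdeal.ramificationIdx ℤ : ℤ)) := by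
  have hfact : Fact l.Prime := ⟨hl⟩
  have hlo : v.asIdeal.LiesOver (Ideal.span {(l : ℤ)}) := liesOver' K hl v hv
  have hpz : (l : ℤ) ≠ 0 := by exact_mod_cast hl.ne_zero
  have hne : (Ideal.span {(l : ℤ)} : Ideal ℤ) ≠ ⊥ := by
    rw [Ne, Ideal.span_singleton_eq_bot]
    exact hpz
  have hpr : (Ideal.span {(l : ℤ)} : Ideal ℤ).IsPrime := by
    rw [Ideal.span_singleton_prime hpz]
    exact Nat.prime_iff_prime_int.1 hl
  have hwp := v.isPrime
  let v0 : HeightOneSpectrum ℤ := ⟨Ideal.span {(l : ℤ)}, hpr, hne⟩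
  have : v.asIdeal.LiesOver v0.asIdeal := hlo
  have h1 := HeightOneSpectrum.intValuation_liesOver v0 v (l : ℤ)
  have h2 : v0.intValuation (l : ℤ) = exp (-1 : ℤ) :=
    HeightOneSpectrum.intValuation_singleton v0 hpz rfl
  have h3 : v0.asIdeal.ramificationIdx' v.asIdeal = v.asIdeal.ramificationIdx ℤ :=
    Ideal.ramificationIdx'_eq_ramificationIdx _ _ hne
  rw [h2, h3] at h1
  have h4 : v.valuation K (l : K) = v.intValuation (algebraMap ℤ (𝓞 K) l) := by
    have : (l : K) = algebraMap (𝓞 K) K (algebraMap ℤ (𝓞 K) l) := by simp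
    rw [this, HeightOneSpectrum.valuation_of_algebraMap]
  rw [h4, ← h1, ← exp_nsmul]
  congr 1
  simp

/-- copy of a lemma of `R425/Ram` -/
theorem unr_of_disc' (K : Type) [Field K] [NumberField K] {l : ℕ} (hl : l.Prime)
    (h : ¬ (l : ℤ) ∣ discr K) (v : HeightOneSpectrum (𝓞 K)) (hv : ((l : ℕ) : 𝓞 K) ∈ v.asIdeal) :
    v.valuation K (l : K) = exp (-1 : ℤ) := by
  rw [not_dvd_discr_iff_forall_mem K (𝓞 K) (Nat.prime_iff_prime_int.1 hl)] at h
  haveI := v.isPrime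
  have h1 := h v.asIdeal v.isPrime (by exact_mod_cast hv)
  have h2 : v.asIdeal.ramificationIdx ℤ = 1 := Ideal.ramificationIdx'_eq_one_iff.2 h1
  rw [val_ram' K hl v hv, h2]
  rfl

/-- the places of the rational numbers above two -/
theorem q_two (v : HeightOneSpectrum (𝓞 ℚ)) (hv : ((2 : ℕ) : 𝓞 ℚ) ∈ v.asIdeal) :
    Ideal.absNorm v.asIdeal = 2 ∧ v.valuation ℚ ((2 : ℕ) : ℚ) = exp (-1 : ℤ) := by
  constructor
  · have h3 : Ideal.absNorm v.asIdeal ∣ Ideal.absNorm (Ideal.span {((2 : ℕ) : 𝓞 ℚ)}) :=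
      Ideal.absNorm_dvd_absNorm_of_le ((Ideal.span_singleton_le_iff_mem _).2 hv)
    have h4 : Ideal.absNorm (Ideal.span {((2 : ℕ) : 𝓞 ℚ)}) = 2 := by
      rw [Ideal.absNorm_span_singleton]
      have : ((2 : ℕ) : 𝓞 ℚ) = algebraMap ℤ (𝓞 ℚ) 2 := by simp
      rw [this, Algebra.norm_algebraMap, Int.natAbs_pow, RingOfIntegers.rank, Module.finrank_self]
      rfl
    rw [h4] at h3
    rcases (Nat.dvd_prime Nat.prime_two).1 h3 with h5 | h5
    · exact absurd (Ideal.absNorm_eq_one_iff.1 h5) v.isPrime.ne_top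
    · exact h5
  · refine unr_of_disc' ℚ Nat.prime_two (fun h => ?_) v hv
    rw [Rat.numberField_discr] at h
    exact absurd (Int.le_of_dvd one_pos h) (by norm_num)

/-- there is a place above two (copy of a lemma of `R425/D/Fin`) -/
lemma exists_two' (K : Type) [Field K] [NumberField K] :
    ∃ v : HeightOneSpectrum (𝓞 K), ((2 : ℕ) : 𝓞 K) ∈ v.asIdeal := by
  have hne : Ideal.span {((2 : ℕ) : 𝓞 K)} ≠ ⊤ := by
    intro h
    rw [Ideal.span_singleton_eq_top] at h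
    have h1 := Ideal.absNorm_span_singleton ((2 : ℕ) : 𝓞 K)
    rw [Ideal.span_singleton_eq_top.2 h, Ideal.absNorm_top] at h1
    have h2 : ((2 : ℕ) : 𝓞 K) = algebraMap ℤ (𝓞 K) 2 := by simp
    rw [h2, Algebra.norm_algebraMap, Int.natAbs_pow] at h1
    have h3 : 0 < Module.finrank ℤ (𝓞 K) := by
      rw [RingOfIntegers.rank]
      exact Module.finrank_pos
    have h4 : (2 : ℕ) ^ 1 ≤ 2 ^ Module.finrank ℤ (𝓞 K) := Nat.pow_le_pow_right (by norm_num) h3
    have h5 : (1 : ℕ) = 2 ^ Module.finrank ℤ (𝓞 K) := h1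
    omega
  obtain ⟨m, hm, hle⟩ := Ideal.exists_le_maximal _ hne
  have hmem : ((2 : ℕ) : 𝓞 K) ∈ m := hle (Ideal.mem_span_singleton_self _)
  refine ⟨⟨m, hm.isPrime, ?_⟩, hmem⟩
  rintro rfl
  rw [Ideal.mem_bot] at hmem
  have : ((2 : ℕ) : 𝓞 K) ≠ 0 := by
    rw [Nat.cast_ne_zero]
    norm_num
  exact this hmem

end Pool.Agent.U860.DS
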