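import Pool.Agent.U860.DS.Pl

/-!
# Short equations of the twists of a curve with a rational point of order two
-/

set_option autoImplicit false
set_option linter.all false

open WeierstrassCurve

namespace Pool.Agent.U860.DS

open Pool.Agent.TH954 Pool.Agent.R425.D Pool.Agent.Y700

open scoped Classical

section

variable {L : Type} [NormedField L] [IsUltrametricDist L] [ProperSpace L] {W : WeierstrassCurve L}

lemma two_tor (hW : SI W) (h20 : (2 : L) ≠ 0) {x y : L} (n : W.toAffine.Nonsingular x y)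
    (h : 2 • Affine.Point.some x y n = 0) : y = 0 := by
  rw [two_nsmul, add_eq_zero_iff_eq_neg, hW.toShort.neg_some] at h
  rw [Affine.Point.some.injEq] at h
  have h1 : 2 * y = 0 := by linear_combination h.2
  exact (mul_eq_zero.1 h1).resolve_left h20

/-- there are no points of order two close to the origin -/
lemma big_two_tor (hW : SI W) (h2 : ‖(2 : L)‖ = 1 / 2) {R : ℝ} (hR : 1 < R)
    {T : W.toAffine.Point} (hT : Big R T) (h : 2 • T = 0) : T = 0 := by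
  have h20 : (2 : L) ≠ 0 := by
    intro h
    rw [h, norm_zero] at h2
    norm_num at h2
  match T with
  | .zero => rfl
  | .some x y n =>
    exfalso
    have hx := big_some.mp hT
    have hy := hW.norm_y_pos n (hR.trans_le hx)
    rw [two_tor hW h20 n h, norm_zero] at hy
    exact lt_irrefl _ hy

lemma big_pow_tor (hW : SI W) (h2 : ‖(2 : L)‖ = 1 / 2) {R : ℝ} (hR : 1 < R)
    {T : W.toAffine.Point} (hT : Big R T) : ∀ j : ℕ, 2 ^ j • T = 0 → T = 0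
  | 0, h => by rwa [pow_zero, one_nsmul] at h
  | j + 1, h => by
    rw [pow_succ, mul_comm, mul_smul] at h
    have h1 : 1 < 4 ^ j * R := by
      have : (1 : ℝ) ≤ 4 ^ j := one_le_pow₀ (by norm_num)
      nlinarith
    exact big_pow_tor hW h2 hR hT j (big_two_tor hW h2 h1 (big_pow hW h2 hR hT j) h)

/-- the points of finite order have order at most two -/
theorem tor_two (hW : SI W) (h2 : ‖(2 : L)‖ = 1 / 2) (hd : ∀ x : L, ‖x‖ < 1 → ‖x‖ ≤ 1 / 2)
    (ha : ‖W.a₄‖ = 1 / 2) (hb : ‖W.a₆‖ ≤ 1 / 4)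
    (P : W.toAffine.Point) (m : ℕ) (hm : 0 < m) (h : m • P = 0) : 2 • P = 0 := by
  have h1 := big_double hW h2 hd ha hb P
  obtain ⟨s, m', hm', rfl⟩ := Nat.exists_eq_two_pow_mul_odd hm.ne'
  have h3 : m' • (2 ^ s • (2 • P)) = 0 := by
    rw [← mul_smul, ← mul_smul]
    have e : m' * 2 ^ s * 2 = 2 * (2 ^ s * m') := by ring
    rw [e, mul_smul, h, smul_zero]
  have h4 : 1 < (4 : ℝ) ^ s * 4 := by
    have : (1 : ℝ) ≤ 4 ^ s := one_le_pow₀ (by norm_num)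
    nlinarith
  have h5 := odd_big' hW h2 h4 (big_pow hW h2 (by norm_num) h1 s) hm' h3
  exact big_pow_tor hW h2 (by norm_num) h1 s h5

end

/-- no root in the 2-adic numbers -/
lemma no_root {x α β : ℚ_[2]} (hα : ‖α‖ ≤ 1 / 2) (hβ : ‖β‖ = 1 / 2) :
    x ^ 2 + α * x + β ≠ 0 := by
  intro h
  rcases lt_or_ge ‖x‖ 1 with hx | hx
  · have hx2 := norm_half hx
    have h1 : ‖x ^ 2 + α * x‖ ≤ 1 / 4 := by
      refine uadd ?_ ?_
      · rw [norm_pow]
        nlinarith [norm_nonneg x]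
      · rw [norm_mul]
        nlinarith [norm_nonneg x, norm_nonneg α]
    have h2 : β = -(x ^ 2 + α * x) := by linear_combination h
    rw [h2, norm_neg] at hβ
    linarith
  · have h1 : x ^ 2 = -(α * x + β) := by linear_combination h
    have h2 : ‖x ^ 2‖ ≤ ‖x‖ / 2 := by
      rw [h1, norm_neg]
      refine uadd ?_ ?_
      · rw [norm_mul]
        nlinarith [norm_nonneg x, norm_nonneg α]
      · rw [hβ]
        linarith
    rw [norm_pow] at h2
    nlinarith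

lemma norm_odd {c : ℤ} (h : Odd c) : ‖(c : ℚ_[2])‖ = 1 := by
  refine le_antisymm (Padic.norm_int_le_one c) ?_
  by_contra hlt
  rw [not_le] at hlt
  have h1 := Padic.norm_intCast_lt_one_iff.1 hlt
  have h2 : Even c := even_iff_two_dvd.2 (by exact_mod_cast h1)
  exact (Int.not_even_iff_odd.2 h) h2

/-- the short equation `Y² = X³ - 27 (a² - 3 b) D² X + 27 (2 a³ - 9 a b) D³` of the twist
`y² = x³ + a D x² + b D² x`, `X = 9 x + 3 a D`, `Y = 27 y` -/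
def sh (a b : ℤ) (D : ℕ) : WeierstrassCurve ℤ :=
  ⟨0, 0, 0, -27 * (a ^ 2 - 3 * b) * (D : ℤ) ^ 2, 27 * (2 * a ^ 3 - 9 * a * b) * (D : ℤ) ^ 3⟩

variable {a b : ℤ} {D : ℕ}

lemma sh_delta : (sh a b D).Δ = 2 ^ 4 * 3 ^ 12 * b ^ 2 * (a ^ 2 - 4 * b) * (D : ℤ) ^ 6 := by
  simp only [sh, WeierstrassCurve.Δ, WeierstrassCurve.b₂, WeierstrassCurve.b₄, WeierstrassCurve.b₆,
    WeierstrassCurve.b₈]
  ring

lemma sh_delta_ne (hb : b ≠ 0) (hc : a ^ 2 - 4 * b ≠ 0) (hD : D ≠ 0) : (sh a b D).Δ ≠ 0 := by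
  rw [sh_delta]
  have hD' : (D : ℤ) ≠ 0 := by exact_mod_cast hD
  exact mul_ne_zero (mul_ne_zero (mul_ne_zero (by norm_num) (pow_ne_zero 2 hb)) hc)
    (pow_ne_zero 6 hD')

/-- the change of variables -/
theorem sh_vr (a b : ℤ) (D : ℕ) : VR (bs (sh a b D) ℚ)
    (⟨0, (a : ℚ) * (D : ℚ), 0, (b : ℚ) * (D : ℚ) ^ 2, 0⟩ : WeierstrassCurve ℚ) 3 (3 * (a * D)) 0 0 where
  u0 := by norm_num
  e1 := by
    show 3 * (0 : ℚ) = ((0 : ℤ) : ℚ) + 2 * 0
    norm_num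
  e2 := by
    show 3 ^ 2 * ((a : ℚ) * (D : ℚ)) = ((0 : ℤ) : ℚ) - 0 * ((0 : ℤ) : ℚ) + 3 * (3 * (a * D)) - 0 ^ 2
    push_cast
    ring
  e3 := by
    show 3 ^ 3 * (0 : ℚ) = ((0 : ℤ) : ℚ) + (3 * (a * D)) * ((0 : ℤ) : ℚ) + 2 * 0
    push_cast
    ring
  e4 := by
    show 3 ^ 4 * ((b : ℚ) * (D : ℚ) ^ 2) =
      ((-27 * (a ^ 2 - 3 * b) * (D : ℤ) ^ 2 : ℤ) : ℚ) - 0 * ((0 : ℤ) : ℚ) +
      2 * (3 * (a * D)) * ((0 : ℤ) : ℚ) - (0 + (3 * (a * D)) * 0) * ((0 : ℤ) : ℚ) +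
      3 * (3 * (a * D)) ^ 2 - 2 * 0 * 0
    push_cast
    ring
  e6 := by
    show 3 ^ 6 * (0 : ℚ) = ((27 * (2 * a ^ 3 - 9 * a * b) * (D : ℤ) ^ 3 : ℤ) : ℚ) +
      (3 * (a * D)) * ((-27 * (a ^ 2 - 3 * b) * (D : ℤ) ^ 2 : ℤ) : ℚ) +
      (3 * (a * D)) ^ 2 * ((0 : ℤ) : ℚ) + (3 * (a * D)) ^ 3 - 0 * ((0 : ℤ) : ℚ) - 0 ^ 2 -
      (3 * (a * D)) * 0 * ((0 : ℤ) : ℚ)
    push_cast
    ring

/-- the points of finite order over the 2-adic numbers -/
theorem sh_tor (ha : Even a) (hb : b % 4 = 2) (hD : Odd D) : TorRat (sh a b D) := by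
  obtain ⟨a', rfl⟩ := ha.two_dvd
  obtain ⟨b', hb', hbo⟩ : ∃ b', b = 2 * b' ∧ Odd b' := ⟨b / 2, by omega, by rw [Int.odd_iff]; omega⟩
  subst hb'
  have hDo : Odd (D : ℤ) := by exact_mod_cast hD
  have hSI := si_bs (sh (2 * a') (2 * b') D) rfl rfl rfl
  have n4 : ‖(bs (sh (2 * a') (2 * b') D) ℚ_[2]).a₄‖ = 1 / 2 := by
    have e : (bs (sh (2 * a') (2 * b') D) ℚ_[2]).a₄ =
        2 * ((-27 * (2 * a' ^ 2 - 3 * b') * (D : ℤ) ^ 2 : ℤ) : ℚ_[2]) := by
      show ((-27 * ((2 * a') ^ 2 - 3 * (2 * b')) * (D : ℤ) ^ 2 : ℤ) : ℚ_[2]) = _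
      push_cast
      ring
    rw [e, norm_mul, norm_two2, norm_odd, mul_one]
    refine (Odd.mul ?_ ?_).mul hDo.pow
    · decide
    · refine Even.sub_odd ?_ (Odd.mul (by decide) hbo)
      exact even_two_mul _
  have n6 : ‖(bs (sh (2 * a') (2 * b') D) ℚ_[2]).a₆‖ ≤ 1 / 4 := by
    have e : (bs (sh (2 * a') (2 * b') D) ℚ_[2]).a₆ =
        2 * (2 * ((27 * (4 * a' ^ 3 - 9 * a' * b') * (D : ℤ) ^ 3 : ℤ) : ℚ_[2])) := by
      show ((27 * (2 * (2 * a') ^ 3 - 9 * (2 * a') * (2 * b')) * (D : ℤ) ^ 3 : ℤ) : ℚ_[2]) = _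
      push_cast
      ring
    rw [e, norm_mul, norm_mul, norm_two2]
    have := Padic.norm_int_le_one (p := 2) (27 * (4 * a' ^ 3 - 9 * a' * b') * (D : ℤ) ^ 3)
    nlinarith
  intro P m hm h
  have h2 := tor_two hSI norm_two2 (fun x hx => norm_half hx) n4 n6 P m hm h
  match P with
  | .zero =>
    refine ⟨.zero, fun j => ?_⟩
    fin_cases j <;> simp [crd]
  | .some X Y n =>
    have h20 : (2 : ℚ_[2]) ≠ 0 := by norm_num
    have hY : Y = 0 := two_tor hSI h20 n h2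
    have heq := hSI.toShort.eqn n
    have e4 : (bs (sh (2 * a') (2 * b') D) ℚ_[2]).a₄ =
        -27 * ((2 * a') ^ 2 - 3 * (2 * b')) * (D : ℚ_[2]) ^ 2 := by
      show ((-27 * ((2 * a') ^ 2 - 3 * (2 * b')) * (D : ℤ) ^ 2 : ℤ) : ℚ_[2]) = _
      push_cast
      ring
    have e6 : (bs (sh (2 * a') (2 * b') D) ℚ_[2]).a₆ =
        27 * (2 * (2 * a') ^ 3 - 9 * (2 * a') * (2 * b')) * (D : ℚ_[2]) ^ 3 := by
      show ((27 * (2 * (2 * a') ^ 3 - 9 * (2 * a') * (2 * b')) * (D : ℤ) ^ 3 : ℤ) : ℚ_[2]) = _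
      push_cast
      ring
    rw [e4, e6, hY] at heq
    set x : ℚ_[2] := (X - 6 * a' * D) / 9 with hx
    have hX : X = 9 * x + 6 * a' * D := by
      rw [hx]
      field_simp
      ring
    have h3 : x * (x ^ 2 + ((2 * a' * D : ℤ) : ℚ_[2]) * x + ((2 * (b' * D ^ 2) : ℤ) : ℚ_[2])) = 0 := by
      have h729 : (729 : ℚ_[2]) ≠ 0 := by norm_num
      apply mul_left_cancel₀ h729
      rw [hX] at heq
      push_cast
      linear_combination -heq
    have hx0 : x = 0 := by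
      refine (mul_eq_zero.1 h3).resolve_right (no_root ?_ ?_)
      · have e : ((2 * a' * D : ℤ) : ℚ_[2]) = 2 * ((a' * D : ℤ) : ℚ_[2]) := by
          push_cast
          ring
        rw [e, norm_mul, norm_two2]
        have := Padic.norm_int_le_one (p := 2) (a' * D)
        linarith
      · have e : ((2 * (b' * D ^ 2) : ℤ) : ℚ_[2]) = 2 * ((b' * D ^ 2 : ℤ) : ℚ_[2]) := by
          push_cast
          ring
        rw [e, norm_mul, norm_two2, norm_odd (hbo.mul hDo.pow), mul_one]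
    rw [hx0, mul_zero, zero_add] at hX
    have hns : (bs (sh (2 * a') (2 * b') D) ℚ).toAffine.Nonsingular (6 * a' * D : ℚ) 0 := by
      have h1 : ((bs (sh (2 * a') (2 * b') D) ℚ).map (algebraMap ℚ ℚ_[2])).toAffine.Nonsingular
          (algebraMap ℚ ℚ_[2] (6 * a' * D : ℚ)) (algebraMap ℚ ℚ_[2] 0) := by
        have e1 : (bs (sh (2 * a') (2 * b') D) ℚ).map (algebraMap ℚ ℚ_[2]) =
            bs (sh (2 * a') (2 * b') D) ℚ_[2] := bs_map _ _
        rw [e1, map_zero]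
        have e2 : algebraMap ℚ ℚ_[2] (6 * a' * D : ℚ) = X := by
          rw [hX]
          simp only [map_mul, map_intCast, map_natCast, map_ofNat]
        rw [e2, ← hY]
        exact n
      exact (Affine.map_nonsingular (bs (sh (2 * a') (2 * b') D) ℚ).toAffine
        (algebraMap ℚ ℚ_[2]).injective _ _).1 h1
    refine ⟨.some (6 * a' * D : ℚ) 0 hns, fun j => ?_⟩
    fin_cases j
    · show X = algebraMap ℚ ℚ_[2] (6 * a' * D : ℚ)
      rw [hX]
      simp only [map_mul, map_intCast, map_natCast, map_ofNat]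
    · show Y = algebraMap ℚ ℚ_[2] 0
      rw [hY, map_zero]
    · show (1 : ℚ_[2]) = algebraMap ℚ ℚ_[2] 1
      rw [map_one]

end Pool.Agent.U860.DS
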