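import Pool.Agent.U860.DS.Coc
import Pool.Agent.U860.DS.Loc
import Pool.Agent.U860.DS.NoOdd
import Pool.Agent.R425.D.ShaT

/-!
# Two-power descent on closed subsets of products of elliptic curves which may have rational points of
# order two

The proofs follow those of `Pool/Agent/R425/D/Thm.lean`.
-/

set_option autoImplicit false
set_option linter.all false

open IsDedekindDomain NumberField WeierstrassCurve MvPolynomial

namespace Pool.Agent.U860.DS

open Pool.Agent.TH954 Pool.Agent.R425.D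

open scoped Classical

section

/-- the curve over `R` -/
abbrev bs (W : WeierstrassCurve ℤ) (R : Type) [CommRing R] : WeierstrassCurve R :=
  W.map (Int.castRingHom R)

/-- the map on points of a homomorphism of fields (copy of `transport` of `R425/D/Main`) -/
lemma transp {L₁ L₂ : Type} [Field L₁] [Field L₂] (g : L₁ →+* L₂) (W₁ : WeierstrassCurve L₁)
    (W₂ : WeierstrassCurve L₂) (h : W₁.map g = W₂) :
    ∃ φ : W₁.toAffine.Point →+ W₂.toAffine.Point, ∀ P j, crd (φ P) j = g (crd P j) := by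
  subst h
  letI := g.toAlgebra
  exact ⟨locHom (L := L₂) W₁, fun P j => crd_loc (L := L₂) W₁ P j⟩

/-- the map on points, as a map of sets -/
lemma transp' {L₁ L₂ : Type} [Field L₁] [Field L₂] (g : L₁ →+* L₂) (W₁ : WeierstrassCurve L₁)
    (W₂ : WeierstrassCurve L₂) (h : W₁.map g = W₂) :
    ∃ φ : W₁.toAffine.Point → W₂.toAffine.Point, ∀ P j, crd (φ P) j = g (crd P j) := by
  obtain ⟨φ, hφ⟩ := transp g W₁ W₂ h
  exact ⟨fun P => φ P, hφ⟩

lemma bs_map (W : WeierstrassCurve ℤ) {R₁ R₂ : Type} [CommRing R₁] [CommRing R₂] (g : R₁ →+* R₂) :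
    (bs W R₁).map g = bs W R₂ := by
  show (W.map _).map g = W.map _
  rw [WeierstrassCurve.map_map]
  congr 1
  exact RingHom.ext_int _ _

lemma si_bs (W : WeierstrassCurve ℤ) (h1 : W.a₁ = 0) (h2 : W.a₂ = 0) (h3 : W.a₃ = 0) :
    SI (bs W ℚ_[2]) where
  h1 := by show ((W.a₁ : ℤ) : ℚ_[2]) = 0; rw [h1, Int.cast_zero]
  h2 := by show ((W.a₂ : ℤ) : ℚ_[2]) = 0; rw [h2, Int.cast_zero]
  h3 := by show ((W.a₃ : ℤ) : ℚ_[2]) = 0; rw [h3, Int.cast_zero]
  ha := Padic.norm_int_le_one W.a₄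
  hb := Padic.norm_int_le_one W.a₆

lemma disc_bs (W : WeierstrassCurve ℤ) (h1 : W.a₁ = 0) (h2 : W.a₂ = 0) (h3 : W.a₃ = 0)
    (hΔ : W.Δ ≠ 0) : 4 * (bs W ℚ_[2]).a₄ ^ 3 + 27 * (bs W ℚ_[2]).a₆ ^ 2 ≠ 0 := by
  have e : W.Δ = -16 * (4 * W.a₄ ^ 3 + 27 * W.a₆ ^ 2) := by
    simp only [WeierstrassCurve.Δ, WeierstrassCurve.b₂, WeierstrassCurve.b₄, WeierstrassCurve.b₆,
      WeierstrassCurve.b₈, h1, h2, h3]
    ring
  have e2 : 4 * (bs W ℚ_[2]).a₄ ^ 3 + 27 * (bs W ℚ_[2]).a₆ ^ 2 =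
      (((4 * W.a₄ ^ 3 + 27 * W.a₆ ^ 2 : ℤ)) : ℚ_[2]) := by
    push_cast
    rfl
  rw [e2]
  intro h
  apply hΔ
  rw [e, Int.cast_eq_zero.1 h, mul_zero]

/-- All points of finite order over the 2-adic numbers are rational. -/
def TorRat (W : WeierstrassCurve ℤ) : Prop :=
  ∀ (P : (bs W ℚ_[2]).toAffine.Point) (m : ℕ), 0 < m → m • P = 0 →
    ∃ y : (bs W ℚ).toAffine.Point, ∀ j, crd P j = algebraMap ℚ ℚ_[2] (crd y j)

end

section

variable {K : Type} [Field K]

/-- The point `P` over the extension `L` of `K` lifts to the `N`-covering given by the `ξ i`. -/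
def CovAt' {n : ℕ} (E : Fin n → WeierstrassCurve K) (N : ℕ)
    (ξ : (i : Fin n) → (AlgebraicClosure K ≃ₐ[K] AlgebraicClosure K) → AlgPt (E i) K)
    (L : Type) [Field L] [Algebra K L] (P : (i : Fin n) → ((E i).baseChange L).toAffine.Point) : Prop :=
  ∃ (ι : AlgebraicClosure K →ₐ[K] AlgebraicClosure L) (Q : (i : Fin n) → AlgPt (E i) L),
    (∀ i, N • Q i = incl (E i) L (P i)) ∧
      ∀ i σ τ, Compat ι σ τ → pm (E i) ι (ξ i τ) = act (E i) σ (Q i) - Q i

variable [NumberField K]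

lemma triv_of_sel {n : ℕ} {E : Fin n → WeierstrassCurve K}
    {S : Set (MvPolynomial (Fin n × Fin 3) K)} {N : ℕ}
    {ξ : (i : Fin n) → (AlgebraicClosure K ≃ₐ[K] AlgebraicClosure K) → AlgPt (E i) K}
    (hξ : ξ ∈ SelSet E S N) :
    (∀ i, IsCocycle (E i) (ξ i)) ∧ (∀ i σ, N • ξ i σ = 0) ∧
    (∀ i, ∀ v : HeightOneSpectrum (𝓞 K), TrivialOver (E i) (ξ i) (v.adicCompletion K)) ∧
    (∀ i, ∀ w : InfinitePlace K, TrivialOver (E i) (ξ i) w.Completion) := by
  obtain ⟨h1, h2, h3, h4⟩ := hξ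
  refine ⟨h1, h2, fun i u => ?_, fun i w => ?_⟩
  · obtain ⟨ι, P, Q, -, -, h⟩ := h3 u
    exact ⟨ι, Q i, fun σ τ hστ => h i σ τ hστ⟩
  · obtain ⟨ι, P, Q, -, -, h⟩ := h4 w
    exact ⟨ι, Q i, fun σ τ hστ => h i σ τ hστ⟩

variable {n : ℕ} {W : Fin n → WeierstrassCurve ℤ}

/-- **Components at the places above two.** -/
theorem thm1 (hW : ∀ i, (W i).a₁ = 0 ∧ (W i).a₂ = 0 ∧ (W i).a₃ = 0) (hΔ : ∀ i, (W i).Δ ≠ 0)
    (hR : ∀ i, TorRat (W i)) (M : Fin n → ℕ) (hM : ∀ i, 0 < M i)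
    (hfin : ∀ i, Finite (bs (W i) K).toAffine.Point)
    (hsha : ∀ i, ∀ (j : ℕ) (s : Pool.Agent.TH841.NF.D.Sha (bs (W i) K)),
      2 ^ j • s = 0 → M i • s = 0)
    (S : Set (MvPolynomial (Fin n × Fin 3) K)) (v : HeightOneSpectrum (𝓞 K))
    (hv1 : Ideal.absNorm v.asIdeal = 2) (hv2 : v.valuation K ((2 : ℕ) : K) = WithZero.exp (-1 : ℤ))
    (P : (i : Fin n) → ((bs (W i) K).baseChange (v.adicCompletion K)).toAffine.Point)
    (hP : OnX S (fun i => crd (P i)))
    (h : ∀ k : ℕ, ∃ ξ ∈ SelSet (fun i => bs (W i) K) S (2 ^ k),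
      CovAt' (fun i => bs (W i) K) (2 ^ k) ξ (v.adicCompletion K) P) :
    ∃ y : (i : Fin n) → (bs (W i) K).toAffine.Point,
      (∀ f ∈ S, eval (fun p => crd (y p.1) p.2) f = 0) ∧
      ∀ i j, crd (P i) j = algebraMap K (v.adicCompletion K) (crd (y i) j) := by
  have : CharZero (v.adicCompletion K) :=
    charZero_of_injective_algebraMap (algebraMap K (v.adicCompletion K)).injective
  obtain ⟨e⟩ := split_iso v hv1 hv2
  let g : v.adicCompletion K →+* ℚ_[2] := e.symm.toRingHom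
  have hg : Function.Injective g := e.symm.injective
  have hφ : ∀ i, ∃ φ : ((bs (W i) K).baseChange (v.adicCompletion K)).toAffine.Point →+
      (bs (W i) ℚ_[2]).toAffine.Point, ∀ P j, crd (φ P) j = g (crd P j) := by
    intro i
    refine transp g _ _ ?_
    show ((bs (W i) K).map (algebraMap K (v.adicCompletion K))).map g = _
    rw [bs_map, bs_map]
  choose φ hφ using hφ
  have hcard : ∀ i, 0 < Nat.card (bs (W i) K).toAffine.Point * M i := by
    intro i
    have := hfin i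
    exact Nat.mul_pos Nat.card_pos (hM i)
  have hodd : ∀ i, ∃ m : ℕ, 0 < m ∧ m • φ i (P i) = 0 := by
    intro i
    obtain ⟨m, hm, hm2⟩ := odd_of_div' (si_bs (W i) (hW i).1 (hW i).2.1 (hW i).2.2)
      (disc_bs (W i) (hW i).1 (hW i).2.1 (hW i).2.2 (hΔ i)) norm_two2
      ((Nat.card (bs (W i) K).toAffine.Point * M i) • φ i (P i)) fun k => (by
        obtain ⟨ξ, hξ, hc⟩ := h k
        obtain ⟨a1, a2, a3, a4⟩ := triv_of_sel hξ
        obtain ⟨z, hz⟩ := divisible_mod (fun i => bs (W i) K) M hfin hsha k ξ a1 a2 a3 a4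
          (v.adicCompletion K) P hc i
        exact ⟨φ i z, by rw [← map_nsmul, hz, map_nsmul]⟩)
    refine ⟨m * (Nat.card (bs (W i) K).toAffine.Point * M i), Nat.mul_pos hm.pos (hcard i), ?_⟩
    rw [mul_smul]
    exact hm2
  choose m hm1 hm2 using hodd
  choose y hy using fun i => hR i (φ i (P i)) (m i) (hm1 i) (hm2 i)
  have hψ : ∀ i, ∃ ψ : (bs (W i) ℚ).toAffine.Point → (bs (W i) K).toAffine.Point,
      ∀ P j, crd (ψ P) j = algebraMap ℚ K (crd P j) := fun i =>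
    transp' (algebraMap ℚ K) _ _ (bs_map (W i) _)
  choose ψ hψ using hψ
  have hcrd : ∀ i j, crd (P i) j = algebraMap K (v.adicCompletion K) (crd (ψ i (y i)) j) := by
    intro i j
    apply hg
    rw [← hφ, hy, hψ]
    have e1 : (g.comp ((algebraMap K (v.adicCompletion K)).comp (algebraMap ℚ K))) =
        algebraMap ℚ ℚ_[2] := Subsingleton.elim _ _
    rw [← e1]
    rfl
  refine ⟨fun i => ψ i (y i), fun f hf => ?_, hcrd⟩
  have h1 := hP f hf
  rw [aeval_def] at h1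
  have e2 : (fun p : Fin n × Fin 3 => crd (P p.1) p.2) =
      fun p => algebraMap K (v.adicCompletion K) (crd (ψ p.1 (y p.1)) p.2) := by
    funext p
    exact hcrd p.1 p.2
  rw [e2] at h1
  have h2 : eval₂ (algebraMap K (v.adicCompletion K))
      (fun p => algebraMap K (v.adicCompletion K) (crd (ψ p.1 (y p.1)) p.2)) f =
      algebraMap K (v.adicCompletion K) (eval (fun p => crd (ψ p.1 (y p.1)) p.2) f) :=
    (eval₂_comp_left (algebraMap K (v.adicCompletion K)) (RingHom.id K) _ f).symm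
  rw [h2, map_eq_zero] at h1
  exact h1

/-- **The Hasse principle part.** -/
theorem thm2 (hW : ∀ i, (W i).a₁ = 0 ∧ (W i).a₂ = 0 ∧ (W i).a₃ = 0) (hΔ : ∀ i, (W i).Δ ≠ 0)
    (hR : ∀ i, TorRat (W i)) (M : Fin n → ℕ) (hM : ∀ i, 0 < M i)
    (hfin : ∀ i, Finite (bs (W i) K).toAffine.Point)
    (hsha : ∀ i, ∀ (j : ℕ) (s : Pool.Agent.TH841.NF.D.Sha (bs (W i) K)),
      2 ^ j • s = 0 → M i • s = 0)
    (v : HeightOneSpectrum (𝓞 K))
    (hv1 : Ideal.absNorm v.asIdeal = 2) (hv2 : v.valuation K ((2 : ℕ) : K) = WithZero.exp (-1 : ℤ))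
    (S : Set (MvPolynomial (Fin n × Fin 3) K)) (hS : ∀ f ∈ S, ∃ d, MultiHom d f)
    (hX : ∀ y : (i : Fin n) → (bs (W i) K).toAffine.Point,
      ¬ ∀ f ∈ S, eval (fun p => crd (y p.1) p.2) f = 0) :
    ∃ k : ℕ, SelSet (fun i => bs (W i) K) S (2 ^ k) = ∅ := by
  have : CharZero (v.adicCompletion K) :=
    charZero_of_injective_algebraMap (algebraMap K (v.adicCompletion K)).injective
  obtain ⟨e⟩ := split_iso v hv1 hv2
  let g : v.adicCompletion K →+* ℚ_[2] := e.symm.toRingHom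
  let θ : K →+* ℚ_[2] := g.comp (algebraMap K (v.adicCompletion K))
  have hψ : ∀ i, ∃ ψ : (bs (W i) ℚ).toAffine.Point → (bs (W i) K).toAffine.Point,
      ∀ P j, crd (ψ P) j = algebraMap ℚ K (crd P j) := fun i =>
    transp' (algebraMap ℚ K) _ _ (bs_map (W i) _)
  choose ψ hψ using hψ
  have hθ : ∀ q : ℚ, θ (algebraMap ℚ K q) = algebraMap ℚ ℚ_[2] q := by
    intro q
    have e1 : θ.comp (algebraMap ℚ K) = algebraMap ℚ ℚ_[2] := Subsingleton.elim _ _
    rw [← e1]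
    rfl
  have hcard : ∀ i, 0 < Nat.card (bs (W i) K).toAffine.Point * M i := by
    intro i
    have := hfin i
    exact Nat.mul_pos Nat.card_pos (hM i)
  obtain ⟨k, hk⟩ := loc_mod norm_two2 (fun i => bs (W i) ℚ_[2])
    (fun i => si_bs (W i) (hW i).1 (hW i).2.1 (hW i).2.2)
    (fun i => disc_bs (W i) (hW i).1 (hW i).2.1 (hW i).2.2 (hΔ i))
    {f | ∃ h ∈ S, f = map θ h}
    (by
      rintro f ⟨h, hh, rfl⟩
      obtain ⟨d, hd⟩ := hS h hh
      exact ⟨d, fun m hm => hd m (MvPolynomial.support_map_subset _ _ hm)⟩)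
    (fun i => Nat.card (bs (W i) K).toAffine.Point * M i) hcard
    (by
      intro P hP
      by_contra hcon
      push Not at hcon
      choose m hm1 hm2 using hcon
      choose y hy using fun i => hR i (P i) (m i) (hm1 i) (hm2 i)
      refine hX (fun i => ψ i (y i)) fun f hf => ?_
      have h1 := hP (map θ f) ⟨f, hf, rfl⟩
      have e2 : (fun p : Fin n × Fin 3 => crd (P p.1) p.2) =
          fun p => θ (crd (ψ p.1 (y p.1)) p.2) := by
        funext p
        rw [hψ, hθ]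
        exact hy p.1 p.2
      rw [e2, eval_map] at h1
      have h2 : eval₂ θ (fun p => θ (crd (ψ p.1 (y p.1)) p.2)) f =
          θ (eval (fun p => crd (ψ p.1 (y p.1)) p.2) f) :=
        (eval₂_comp_left θ (RingHom.id K) _ f).symm
      rw [h2, map_eq_zero] at h1
      exact h1)
  refine ⟨k, ?_⟩
  rw [Set.eq_empty_iff_forall_notMem]
  intro ξ hξ
  obtain ⟨a1, a2, a3, a4⟩ := triv_of_sel hξ
  obtain ⟨ι, P, Q, hP, hPQ, hQ⟩ := hξ.2.2.1 v
  have hz := divisible_mod (fun i => bs (W i) K) M hfin hsha k ξ a1 a2 a3 a4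
    (v.adicCompletion K) P ⟨ι, Q, hPQ, hQ⟩
  choose z hz using hz
  have hφ : ∀ i, ∃ φ : ((bs (W i) K).baseChange (v.adicCompletion K)).toAffine.Point →+
      (bs (W i) ℚ_[2]).toAffine.Point, ∀ P j, crd (φ P) j = g (crd P j) := by
    intro i
    refine transp g _ _ ?_
    show ((bs (W i) K).map (algebraMap K (v.adicCompletion K))).map g = _
    rw [bs_map, bs_map]
  choose φ hφ using hφ
  obtain ⟨i, hi⟩ := hk (fun i => φ i (P i)) (by
    rintro f ⟨h, hh, rfl⟩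
    have h1 := hP h hh
    rw [aeval_def] at h1
    have h2 := congrArg g h1
    rw [map_zero, MvPolynomial.hom_eval₂] at h2
    rw [eval_map]
    rw [← h2]
    congr 1
    funext p
    exact hφ p.1 (P p.1) p.2)
  apply hi (φ i (z i))
  rw [← map_nsmul, hz i, map_nsmul]

end

end Pool.Agent.U860.DS
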